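import Mathlib.Geometry.Euclidean.Angle.Unoriented.Affine
import Mathlib.Analysis.InnerProductSpace.PiL2
import Mathlib.LinearAlgebra.AffineSpace.Independent

/-!
# MP_ba4d4a_gt: a longest edge need not contain a vertex of largest curvature

The tetrahedron with vertices `(0,3,0)`, `(3,0,0)`, `(-3,0,0)`, `(0,0,5)` has the unique longest edge
`(3,0,0)(-3,0,0)` (length `6`, the other edges have lengths `√34` and `√18`), and its curvature at
the vertex `(0,0,5)` is strictly larger than the curvatures at the three other vertices.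
-/

open EuclideanGeometry

namespace Pool.Agent.Results.MP_ba4d4a_gt.LongestEdgeMissesCurvature

/-- The curvature `2π - (sum of the three face angles at the vertex v)` of the tetrahedron with
vertices `p 0, p 1, p 2, p 3` at its vertex `p v`; the faces containing `p v` correspond to the
pairs `{i, j}` of other vertices. -/
noncomputable def curvature (p : Fin 4 → EuclideanSpace ℝ (Fin 3)) (v : Fin 4) : ℝ :=
  2 * Real.pi - ∑ e ∈ Finset.univ.filter
    (fun e : Fin 4 × Fin 4 => e.1 < e.2 ∧ e.1 ≠ v ∧ e.2 ≠ v), ∠ (p e.1) (p v) (p e.2)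

/-- the four vertices -/
noncomputable def pt : Fin 4 → EuclideanSpace ℝ (Fin 3) :=
  ![!₂[0, 3, 0], !₂[3, 0, 0], !₂[-3, 0, 0], !₂[0, 0, 5]]

lemma curv_eq (p : Fin 4 → EuclideanSpace ℝ (Fin 3)) (v : Fin 4) : curvature p v =
    2 * Real.pi - ∑ i : Fin 4, ∑ j : Fin 4, if (i < j ∧ i ≠ v ∧ j ≠ v) then ∠ (p i) (p v) (p j)
      else 0 := by
  unfold curvature
  rw [Finset.sum_filter, Fintype.sum_prod_type]

lemma curv0 (p : Fin 4 → EuclideanSpace ℝ (Fin 3)) : curvature p 0 =
    2 * Real.pi - (∠ (p 1) (p 0) (p 2) + ∠ (p 1) (p 0) (p 3) + ∠ (p 2) (p 0) (p 3)) := by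
  rw [curv_eq]
  simp [Fin.sum_univ_four, show ¬ ((3 : Fin 4) < 2) by decide, show ((2 : Fin 4) < 3) by decide,
    show ((1 : Fin 4) < 2) by decide, show ((1 : Fin 4) < 3) by decide]

lemma curv1 (p : Fin 4 → EuclideanSpace ℝ (Fin 3)) : curvature p 1 =
    2 * Real.pi - (∠ (p 0) (p 1) (p 2) + ∠ (p 0) (p 1) (p 3) + ∠ (p 2) (p 1) (p 3)) := by
  rw [curv_eq]
  simp [Fin.sum_univ_four, show ((2 : Fin 4) < 3) by decide, show ¬ ((3 : Fin 4) < 2) by decide]

lemma curv2 (p : Fin 4 → EuclideanSpace ℝ (Fin 3)) : curvature p 2 =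
    2 * Real.pi - (∠ (p 0) (p 2) (p 1) + ∠ (p 0) (p 2) (p 3) + ∠ (p 1) (p 2) (p 3)) := by
  rw [curv_eq]
  simp [Fin.sum_univ_four, show ((1 : Fin 4) < 3) by decide]

lemma curv3 (p : Fin 4 → EuclideanSpace ℝ (Fin 3)) : curvature p 3 =
    2 * Real.pi - (∠ (p 0) (p 3) (p 1) + ∠ (p 0) (p 3) (p 2) + ∠ (p 1) (p 3) (p 2)) := by
  rw [curv_eq]
  simp [Fin.sum_univ_four, show ((1 : Fin 4) < 2) by decide]

/-- squared distances -/
lemma dist_eq (i j : Fin 4) : dist (pt i) (pt j) =
    Real.sqrt (∑ k : Fin 3, (pt i k - pt j k) ^ 2) := by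
  rw [EuclideanSpace.dist_eq]
  congr 1
  exact Finset.sum_congr rfl fun k _ => by rw [Real.dist_eq, sq_abs]

lemma ang_eq (i j k : Fin 4) : ∠ (pt i) (pt j) (pt k) =
    Real.arccos ((∑ l : Fin 3, (pt i l - pt j l) * (pt k l - pt j l)) /
      (Real.sqrt (∑ l : Fin 3, (pt i l - pt j l) ^ 2) *
        Real.sqrt (∑ l : Fin 3, (pt k l - pt j l) ^ 2))) := by
  unfold EuclideanGeometry.angle InnerProductGeometry.angle
  congr 2
  · simp [PiLp.inner_apply, mul_comm]
  · rw [EuclideanSpace.norm_eq, EuclideanSpace.norm_eq]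
    congr 2 <;> exact Finset.sum_congr rfl fun l _ => by simp

lemma s36 : Real.sqrt 36 = 6 := by
  rw [show (36 : ℝ) = 6 ^ 2 by norm_num]
  exact Real.sqrt_sq (by norm_num)

lemma s34 : Real.sqrt 34 * Real.sqrt 34 = 34 := Real.mul_self_sqrt (by norm_num)
lemma s18 : Real.sqrt 18 * Real.sqrt 18 = 18 := Real.mul_self_sqrt (by norm_num)


lemma a031 : ∠ (pt 0) (pt 3) (pt 1) = Real.arccos (25 / 34) := by
  rw [ang_eq]
  congr 1
  simp [pt, Fin.sum_univ_three]
  norm_num

lemma a032 : ∠ (pt 0) (pt 3) (pt 2) = Real.arccos (25 / 34) := by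
  rw [ang_eq]
  congr 1
  simp [pt, Fin.sum_univ_three]
  norm_num

lemma a132 : ∠ (pt 1) (pt 3) (pt 2) = Real.arccos (16 / 34) := by
  rw [ang_eq]
  congr 1
  simp [pt, Fin.sum_univ_three]
  norm_num

lemma a012 : ∠ (pt 0) (pt 1) (pt 2) = Real.arccos (18 / (Real.sqrt 18 * 6)) := by
  rw [ang_eq]
  congr 1
  simp [pt, Fin.sum_univ_three]
  norm_num [s36]

lemma a013 : ∠ (pt 0) (pt 1) (pt 3) = Real.arccos (9 / (Real.sqrt 18 * Real.sqrt 34)) := by
  rw [ang_eq]
  congr 1
  simp [pt, Fin.sum_univ_three]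
  norm_num

lemma a213 : ∠ (pt 2) (pt 1) (pt 3) = Real.arccos (18 / (6 * Real.sqrt 34)) := by
  rw [ang_eq]
  congr 1
  simp [pt, Fin.sum_univ_three]
  norm_num [s36]

lemma a021 : ∠ (pt 0) (pt 2) (pt 1) = Real.arccos (18 / (Real.sqrt 18 * 6)) := by
  rw [ang_eq]
  congr 1
  simp [pt, Fin.sum_univ_three]
  norm_num [s36]

lemma a023 : ∠ (pt 0) (pt 2) (pt 3) = Real.arccos (9 / (Real.sqrt 18 * Real.sqrt 34)) := by
  rw [ang_eq]
  congr 1
  simp [pt, Fin.sum_univ_three]
  norm_num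

lemma a123 : ∠ (pt 1) (pt 2) (pt 3) = Real.arccos (18 / (6 * Real.sqrt 34)) := by
  rw [ang_eq]
  congr 1
  simp [pt, Fin.sum_univ_three]
  norm_num [s36]

lemma a102 : ∠ (pt 1) (pt 0) (pt 2) = Real.arccos 0 := by
  rw [ang_eq]
  congr 1
  simp [pt, Fin.sum_univ_three]

lemma a103 : ∠ (pt 1) (pt 0) (pt 3) = Real.arccos (9 / (Real.sqrt 18 * Real.sqrt 34)) := by
  rw [ang_eq]
  congr 1
  simp [pt, Fin.sum_univ_three]
  norm_num

lemma a203 : ∠ (pt 2) (pt 0) (pt 3) = Real.arccos (9 / (Real.sqrt 18 * Real.sqrt 34)) := by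
  rw [ang_eq]
  congr 1
  simp [pt, Fin.sum_univ_three]
  norm_num

lemma q1 : 9 / (Real.sqrt 18 * Real.sqrt 34) < (16 : ℝ) / 34 := by
  have h1 : (4 : ℝ) < Real.sqrt 18 := by
    rw [show (4 : ℝ) = Real.sqrt 16 by
      rw [show (16 : ℝ) = 4 ^ 2 by norm_num]; exact (Real.sqrt_sq (by norm_num)).symm]
    exact Real.sqrt_lt_sqrt (by norm_num) (by norm_num)
  have h2 : (5 : ℝ) < Real.sqrt 34 := by
    rw [show (5 : ℝ) = Real.sqrt 25 by
      rw [show (25 : ℝ) = 5 ^ 2 by norm_num]; exact (Real.sqrt_sq (by norm_num)).symm]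
    exact Real.sqrt_lt_sqrt (by norm_num) (by norm_num)
  rw [div_lt_div_iff₀ (by positivity) (by norm_num)]
  nlinarith

lemma q2 : 18 / (Real.sqrt 18 * 6) < (25 : ℝ) / 34 := by
  have h1 : (42 / 10 : ℝ) < Real.sqrt 18 := by
    rw [show (42 / 10 : ℝ) = Real.sqrt ((42 / 10) ^ 2) from (Real.sqrt_sq (by norm_num)).symm]
    exact Real.sqrt_lt_sqrt (by norm_num) (by norm_num)
  rw [div_lt_div_iff₀ (by positivity) (by norm_num)]
  nlinarith

lemma q3 : 18 / (6 * Real.sqrt 34) < (25 : ℝ) / 34 := by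
  have h2 : (5 : ℝ) < Real.sqrt 34 := by
    rw [show (5 : ℝ) = Real.sqrt 25 by
      rw [show (25 : ℝ) = 5 ^ 2 by norm_num]; exact (Real.sqrt_sq (by norm_num)).symm]
    exact Real.sqrt_lt_sqrt (by norm_num) (by norm_num)
  rw [div_lt_div_iff₀ (by positivity) (by norm_num)]
  nlinarith

lemma cmp {x y : ℝ} (h0 : 0 ≤ x) (h : x < y) (h1 : y ≤ 1) : Real.arccos y < Real.arccos x :=
  Real.arccos_lt_arccos (by linarith) h h1

lemma lt1 : curvature pt 1 < curvature pt 3 := by
  rw [curv1, curv3, a031, a032, a132, a012, a013, a213]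
  have h1 := cmp (by positivity) q2 (by norm_num)
  have h2 := cmp (by positivity) q3 (by norm_num)
  have h3 := cmp (by positivity) q1 (by norm_num)
  linarith

lemma lt2 : curvature pt 2 < curvature pt 3 := by
  rw [curv2, curv3, a031, a032, a132, a021, a023, a123]
  have h1 := cmp (by positivity) q2 (by norm_num)
  have h2 := cmp (by positivity) q3 (by norm_num)
  have h3 := cmp (by positivity) q1 (by norm_num)
  linarith

lemma lt0 : curvature pt 0 < curvature pt 3 := by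
  rw [curv0, curv3, a031, a032, a132, a102, a103, a203]
  have h1 := cmp (le_refl 0) (show (0 : ℝ) < 16 / 34 by norm_num) (by norm_num)
  have h3 := cmp (by positivity) (q1.trans (show (16 : ℝ) / 34 < 25 / 34 by norm_num))
    (by norm_num)
  linarith

lemma indep : AffineIndependent ℝ pt := by
  rw [affineIndependent_iff_linearIndependent_vsub ℝ pt (0 : Fin 4)]
  rw [Fintype.linearIndependent_iff]
  intro g hg
  have h0 : ∀ k : Fin 3, ∑ i : {x : Fin 4 // x ≠ 0}, g i * (pt i k - pt 0 k) = 0 := by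
    intro k
    have := congrArg (fun v : EuclideanSpace ℝ (Fin 3) => v k) hg
    simpa using this
  have hs : ∀ f : {x : Fin 4 // x ≠ 0} → ℝ,
      ∑ i, f i = f ⟨1, by decide⟩ + f ⟨2, by decide⟩ + f ⟨3, by decide⟩ := by
    intro f
    have : (Finset.univ : Finset {x : Fin 4 // x ≠ 0}) =
        {⟨1, by decide⟩, ⟨2, by decide⟩, ⟨3, by decide⟩} := by decide
    rw [this, Finset.sum_insert (by decide), Finset.sum_insert (by decide), Finset.sum_singleton]
    ring
  have e0 := h0 0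
  have e1 := h0 1
  have e2 := h0 2
  rw [hs] at e0 e1 e2
  simp [pt] at e0 e1 e2
  rintro ⟨i, hi⟩
  fin_cases i
  · exact absurd rfl hi
  · show g ⟨1, _⟩ = 0
    linarith
  · show g ⟨2, _⟩ = 0
    linarith
  · show g ⟨3, _⟩ = 0
    linarith

lemma d12 : dist (pt 1) (pt 2) = Real.sqrt 36 := by
  rw [dist_eq]
  congr 1
  simp [pt, Fin.sum_univ_three]
  norm_num

/-- There is a tetrahedron with a unique longest edge (between the vertices `1` and `2`) such that
the curvatures at both endpoints of this edge are strictly smaller than the curvature at another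
vertex (the vertex `3`, which is the unique vertex of largest curvature). -/
theorem result : ∃ p : Fin 4 → EuclideanSpace ℝ (Fin 3), AffineIndependent ℝ p ∧
    (∀ i j : Fin 4, s(i, j) ≠ s(1, 2) → dist (p i) (p j) < dist (p 1) (p 2)) ∧
    (∀ v : Fin 4, v ≠ 3 → curvature p v < curvature p 3) := by
  refine ⟨pt, indep, ?_, ?_⟩
  · intro i j hij
    rw [d12, dist_eq]
    apply Real.sqrt_lt_sqrt (Finset.sum_nonneg fun _ _ => sq_nonneg _)
    fin_cases i <;> fin_cases j <;>
      first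
      | exact absurd rfl hij
      | exact absurd (Sym2.eq_swap) hij
      | (simp [pt, Fin.sum_univ_three]; done)
      | (simp [pt, Fin.sum_univ_three]; norm_num; done)
  · intro v hv
    fin_cases v
    · exact lt0
    · exact lt1
    · exact lt2
    · exact absurd rfl hv

end Pool.Agent.Results.MP_ba4d4a_gt.LongestEdgeMissesCurvature
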